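import Pool.Agent.H752.PL.Stubs

/-!
# L8: the probability for fixed `y`
-/

namespace Pool.Agent.H752.PL

open Pool.Agent.NPC Pool.Agent.H620R2.Gauge Finset H568R2 Pool.Agent.H752.GE Filter

open Classical in
theorem L8_aux {Y : Type} [Fintype Y] (D : Finset Y) (h : Y → (Y → Bool) → Bool)
    (hh : ∀ v z z', (∀ u ∈ D, z u = z' u) → h v z = h v z') (S : Finset Y)
    (hS : ∀ v ∈ S, v ∉ D) :
    Ex unif (fun z : Y → Bool => if ∀ v ∈ S, z v = h v z then (1 : ℝ) else 0) =
      (1 / 2) ^ S.card := by
  have hw : ∑ a : Bool, unif a = 1 := by
    rw [Fintype.sum_bool]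
    unfold unif
    norm_num
  induction S using Finset.induction_on with
  | empty =>
    simp only [notMem_empty, false_implies, implies_true, if_true, card_empty, pow_zero]
    exact Ex_const hw 1
  | insert v S hv ih =>
    have hvD : v ∉ D := hS v (mem_insert_self v S)
    have ih' := ih (fun u hu => hS u (mem_insert_of_mem hu))
    rw [Ex_resample hw _ v, card_insert_of_notMem hv, pow_succ, mul_comm, ← ih', ← Ex_smul]
    congr 1
    funext z
    have e1 : ∀ a : Bool, (if ∀ u ∈ insert v S, Function.update z v a u =
        h u (Function.update z v a) then (1 : ℝ) else 0) =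
        (if a = h v z then 1 else 0) * (if ∀ u ∈ S, z u = h u z then 1 else 0) := by
      intro a
      have e2 : ∀ u, h u (Function.update z v a) = h u z := fun u => hh u _ _ (fun x hx =>
        Function.update_of_ne (by rintro rfl; exact hvD hx) _ _)
      have e3 : (∀ u ∈ insert v S, Function.update z v a u = h u (Function.update z v a)) ↔
          (a = h v z ∧ ∀ u ∈ S, z u = h u z) := by
        constructor
        · intro H
          refine ⟨?_, fun u hu => ?_⟩
          · have := H v (mem_insert_self v S)
            rwa [Function.update_self, e2] at this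
          · have := H u (mem_insert_of_mem hu)
            rwa [Function.update_of_ne (by rintro rfl; exact hv hu), e2] at this
        · rintro ⟨H1, H2⟩ u hu
          rw [e2]
          rcases mem_insert.mp hu with rfl | hu3
          · rw [Function.update_self]; exact H1
          · have hne : u ≠ v := by
              intro hne
              rw [hne] at hu3
              exact hv hu3
            rw [Function.update_of_ne hne]
            exact H2 u hu3
      by_cases c1 : a = h v z
      · by_cases c2 : ∀ u ∈ S, z u = h u z
        · rw [if_pos (e3.mpr ⟨c1, c2⟩), if_pos c1, if_pos c2, mul_one]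
        · rw [if_neg (fun H => c2 (e3.mp H).2), if_neg c2, mul_zero]
      · rw [if_neg (fun H => c1 (e3.mp H).1), if_neg c1, zero_mul]
    simp only [e1]
    rw [Fintype.sum_bool]
    unfold unif
    cases h v z
    · simp
    · simp

/-- L8 -/
theorem t_p1 : St_p1 := by
  classical
  intro X Y _ _ D y g hg
  have hj : ∀ v : Y, ∃ h : (Y → Bool) → Bool,
      (∀ z z', (∀ u ∈ D, z u = z' u) → h z = h z') ∧
      (v ∈ univ.image y → ∀ z, (∀ j, g j z = z (y j)) → z v = h z) := by
    intro v
    by_cases hv : v ∈ univ.image y
    · obtain ⟨j, -, hj⟩ := mem_image.mp hv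
      refine ⟨g j, fun z z' hz => hg j z z' hz, fun _ z hz => ?_⟩
      rw [hz j, hj]
    · exact ⟨fun _ => true, fun _ _ _ => rfl, fun h => absurd h hv⟩
  choose h hh hh' using hj
  have h1 := L8_aux D h hh (univ.image y \ D) (fun v hv => (mem_sdiff.mp hv).2)
  have h0 : ∀ a : Bool, 0 ≤ unif a := by
    intro a
    unfold unif
    norm_num
  refine le_trans (Ex_mono h0 ?_) (le_of_eq h1)
  intro z
  by_cases c1 : ∀ j, g j z = z (y j)
  · rw [if_pos c1, if_pos]
    intro v hv
    exact hh' v (mem_sdiff.mp hv).1 z c1
  · rw [if_neg c1]
    split_ifs <;> norm_num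

end Pool.Agent.H752.PL
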